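import Pool.Agent.MP_12605b_an.CircleForm

/-!
# Discrete singular inner functions which are uniform limits of continuous ones

For every purely atomic finite measure `α` on the unit circle and every `ε > 0` there is a purely atomic finite
measure `μ ≥ α` with `(μ - α)(circle) ≤ ε` such that the singular inner function `S_μ` is a uniform limit, on the
unit disc, of singular inner functions `S_ν` of measures `ν` without atoms (and singular to the arc length), with
`ν(circle) ≤ μ(circle) + δ` if `‖S_μ - S_ν‖_∞ ≤ δ`. The measure `μ` is the same for all `δ`.

Sketch of the proof. On the circle off a closed null set which carries `μ` and `ν`, the function `S_μ / S_ν` is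
`exp (i h)`, `h` the difference of the boundary fields `∫ cot ((t - θ) / 2)` of `ν` and `μ`. If `h` is within `ε` of
`2 π ℤ` off a set of small Lebesgue measure in a compact arc, then, by the Poisson formula for the bounded functions,
the difference is small off the arc; a dipole (a point mass and a continuous mass of the same size side by side)
changes `h` by any prescribed amount on an interval comparable with the distance of the two masses and costs a mass
proportional to the length of that interval. A greedy scheme repairs a fixed proportion of the bad set in every step;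
the total mass of the dipoles is a convergent geometric series. This gives `ρ` discrete, small, with `S_(α + ρ)`
near to `S_ν` (`lemmaA`). The measure `μ = α + ∑ ρ_n` is built so that for every `δ` it is a sum of infinitely many
consecutive blocks which are completed in this way with errors of sum `≤ δ`.
-/

set_option autoImplicit false

open MeasureTheory

namespace Pool.Agent.Results.MP_12605b_an.DenseCounterexamples

/-- The singular inner function of a finite measure `μ` on the unit circle. -/
noncomputable def singularInner (μ : Measure ℂ) (z : ℂ) : ℂ :=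
  Complex.exp (-∫ ζ, (ζ + z) / (ζ - z) ∂μ)

/-- The arc length of the unit circle, as a measure on `ℂ`. -/
noncomputable def arcLength : Measure ℂ :=
  (volume.restrict (Set.Ico 0 (2 * Real.pi))).map fun t : ℝ => Complex.exp ((t : ℂ) * Complex.I)

/-- `μ` is a finite, purely atomic measure carried by the unit circle. -/
def IsDiscrete (μ : Measure ℂ) : Prop :=
  IsFiniteMeasure μ ∧ μ {ζ | ‖ζ‖ = 1}ᶜ = 0 ∧ ∃ C : Set ℂ, C.Countable ∧ μ Cᶜ = 0

/-- `ν` is a finite measure carried by the unit circle, singular to the arc length and without atoms. -/
def IsContinuousSingular (ν : Measure ℂ) : Prop :=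
  IsFiniteMeasure ν ∧ ν {ζ | ‖ζ‖ = 1}ᶜ = 0 ∧ ν.MutuallySingular arcLength ∧ ∀ ζ, ν {ζ} = 0

/-- Every discrete measure `α` is dominated by a discrete measure `μ` of mass at most `ε` more whose singular inner
function is a uniform limit of continuous singular inner functions. -/
theorem result (α : Measure ℂ) (hα : IsDiscrete α) (ε : ℝ) (hε : 0 < ε) :
    ∃ μ : Measure ℂ, IsDiscrete μ ∧ α ≤ μ ∧ μ Set.univ ≤ α Set.univ + ENNReal.ofReal ε ∧
      ∀ δ : ℝ, 0 < δ → ∃ ν : Measure ℂ, IsContinuousSingular ν ∧
        ν Set.univ ≤ μ Set.univ + ENNReal.ofReal δ ∧
        ∀ z : ℂ, ‖z‖ < 1 → ‖singularInner μ z - singularInner ν z‖ ≤ δ := by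
  obtain ⟨hf, hs, C, hC, hαC⟩ := hα
  obtain ⟨μ, h1, h2, h3, h4, h5, H⟩ :=
    Pool.Agent.MP_12605b_an.circle_dense hf hs hC hαC hε
  refine ⟨μ, ⟨h1, h2, h3⟩, h4, h5, fun δ hδ => ?_⟩
  obtain ⟨ν, g1, g2, g3, g4, g5, g6⟩ := H δ hδ
  exact ⟨ν, ⟨g1, g2, g3, g4⟩, g5, g6⟩

end Pool.Agent.Results.MP_12605b_an.DenseCounterexamples
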